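import Mathlib

/-! Relative termination of a four-letter string rewriting system. -/

namespace Pool.Agent.Results.MP_081fbf_lc.Terminates

/-- the alphabet -/
inductive Ch : Type
  | a | b | c | d

open Ch

/-- the strict rules -/
def R : List (List Ch × List Ch) :=
  [([a, d], [d, b]), ([a], [b, b, b]), ([d], []), ([a], []), ([b, c], [c, d, d]),
    ([a, c], [b, b, c, d])]

/-- the non-strict rules -/
def S : List (List Ch × List Ch) := [([b, d, b], [a, d]), ([a, d], [b, d, b])]

/-- one rewrite step with a rule of `T` -/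
def Step (T : List (List Ch × List Ch)) (x y : List Ch) : Prop :=
  ∃ u v l r, (l, r) ∈ T ∧ x = u ++ l ++ v ∧ y = u ++ r ++ v

def f : ℕ → ℕ → List Ch → List ℕ
  | D, W, [] => [D, W]
  | D, W, a :: w => f D (W + 4 * 3 ^ D) w
  | D, W, b :: w => f D (W + 3 ^ D) w
  | D, W, d :: w => f (D + 1) W w
  | D, W, c :: w => D :: W :: f 0 0 w

theorem f_len (v : List Ch) : ∀ D W D' W', (f D W v).length = (f D' W' v).length := by
  induction v with
  | nil => intros; rfl
  | cons x v ih => intro D W D' W'; cases x <;> simp only [f, List.length_cons] <;> apply ih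

def Lt (p q : List ℕ) : Prop := p.length = q.length ∧ List.Lex (· < ·) p q

theorem lt_W (v : List Ch) : ∀ D W W', W' < W → Lt (f D W' v) (f D W v) := by
  induction v with
  | nil => intro D W W' h; exact ⟨rfl, .cons (.rel h)⟩
  | cons x v ih =>
    intro D W W' h
    cases x <;> simp only [f]
    · exact ih _ _ _ (by omega)
    · exact ih _ _ _ (by omega)
    · exact ⟨rfl, .cons (.rel h)⟩
    · exact ih _ _ _ h

theorem lt_D (v : List Ch) : ∀ D D' W W', D' < D → Lt (f D' W' v) (f D W v) := by
  induction v with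
  | nil => intro D D' W W' h; exact ⟨rfl, .rel h⟩
  | cons x v ih =>
    intro D D' W W' h
    cases x <;> simp only [f]
    · exact ih _ _ _ _ h
    · exact ih _ _ _ _ h
    · exact ⟨rfl, .rel h⟩
    · exact ih _ _ _ _ (by omega)

theorem lt_pre {x y : List Ch} (h : ∀ D W, Lt (f D W y) (f D W x)) (u : List Ch) :
    ∀ D W, Lt (f D W (u ++ y)) (f D W (u ++ x)) := by
  induction u with
  | nil => exact h
  | cons z u ih =>
    intro D W
    cases z <;> simp only [List.cons_append, f]
    · exact ih _ _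
    · exact ih _ _
    · exact ⟨by simp [(ih 0 0).1], .cons (.cons (ih 0 0).2)⟩
    · exact ih _ _

theorem eq_pre {x y : List Ch} (h : ∀ D W, f D W y = f D W x) (u : List Ch) :
    ∀ D W, f D W (u ++ y) = f D W (u ++ x) := by
  induction u with
  | nil => exact h
  | cons z u ih => intro D W; cases z <;> simp only [List.cons_append, f, ih]

theorem step_R {x y : List Ch} (h : Step R x y) : Lt (f 0 0 y) (f 0 0 x) := by
  obtain ⟨u, v, l, r, h, rfl, rfl⟩ := h
  rw [List.append_assoc, List.append_assoc]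
  refine lt_pre (fun D W => ?_) u 0 0
  have p : 0 < 3 ^ D := by positivity
  simp only [R, List.mem_cons, Prod.mk.injEq, List.not_mem_nil, or_false] at h
  rcases h with ⟨rfl, rfl⟩ | ⟨rfl, rfl⟩ | ⟨rfl, rfl⟩ | ⟨rfl, rfl⟩ | ⟨rfl, rfl⟩ | ⟨rfl, rfl⟩ <;>
    simp only [List.cons_append, List.nil_append, f]
  · exact lt_W _ _ _ _ (by omega)
  · exact lt_W _ _ _ _ (by omega)
  · exact lt_D _ _ _ _ _ (by omega)
  · exact lt_W _ _ _ _ (by omega)
  · exact ⟨by simp [f_len v 2 0 0 0], .cons (.rel (by omega))⟩
  · exact ⟨by simp [f_len v 1 0 0 0], .cons (.rel (by omega))⟩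

theorem step_S {x y : List Ch} (h : Step S x y) : f 0 0 y = f 0 0 x := by
  obtain ⟨u, v, l, r, h, rfl, rfl⟩ := h
  rw [List.append_assoc, List.append_assoc]
  refine eq_pre (fun D W => ?_) u 0 0
  simp only [S, List.mem_cons, Prod.mk.injEq, List.not_mem_nil, or_false] at h
  rcases h with ⟨rfl, rfl⟩ | ⟨rfl, rfl⟩ <;> simp only [List.cons_append, List.nil_append, f] <;>
    congr 1 <;> omega

theorem result (x : ℕ → List Ch) (h : ∀ n, Step R (x n) (x (n + 1)) ∨ Step S (x n) (x (n + 1))) :
    {n | Step R (x n) (x (n + 1))}.Finite := by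
  have wf : WellFounded (List.Shortlex (α := ℕ) (· < ·)) := List.Shortlex.wf wellFounded_lt
  obtain ⟨_, ⟨N, rfl⟩, hN⟩ := wf.has_min (Set.range fun n => f 0 0 (x n)) ⟨_, 0, rfl⟩
  have sl : ∀ {p q}, Lt p q → List.Shortlex (· < ·) p q := fun k => List.Shortlex.of_lex k.1 k.2
  have key : ∀ n, N ≤ n → f 0 0 (x n) = f 0 0 (x N) := by
    intro n hn
    induction n, hn using Nat.le_induction with
    | base => rfl
    | succ n _ ih =>
      rcases h n with k | k
      · have := sl (step_R k)
        rw [ih] at this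
        exact absurd this (hN _ ⟨n + 1, rfl⟩)
      · rw [step_S k, ih]
  refine (Set.finite_lt_nat N).subset fun n hn => ?_
  by_contra k
  have := sl (step_R hn)
  rw [key n (not_lt.1 k)] at this
  exact hN _ ⟨n + 1, rfl⟩ this

end Pool.Agent.Results.MP_081fbf_lc.Terminates
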